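import Pool.Agent.MP5400b1.Newton

set_option autoImplicit false

namespace Pool.Agent.Results.MP_5400b1_co.BlownUpPath

/-- The chromatic symmetric function of a finite graph, a formal power series in the variables
`x_0, x_1, x_2, …`: the coefficient of `x^α` is the number of proper colourings `κ : V → ℕ`
with `∏ v, x_(κ v) = x^α`. -/
noncomputable def chromatic {V : Type} [Fintype V] (G : SimpleGraph V) : MvPowerSeries ℕ ℤ :=
  fun α => (Nat.card {κ : V → ℕ // (∀ u v, G.Adj u v → κ u ≠ κ v) ∧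
    ∑ v, Finsupp.single (κ v) 1 = α} : ℤ)

/-- The Schur function of a partition: the coefficient of `x^α` is the number of semistandard
tableaux of shape `μ` and content `α`. -/
noncomputable def schur (μ : YoungDiagram) : MvPowerSeries ℕ ℤ :=
  fun α => (Nat.card {T : SemistandardYoungTableau μ //
    ∑ p ∈ μ.cells, Finsupp.single (T p.1 p.2) 1 = α} : ℤ)

/-- A linear combination of finitely many Schur functions with coefficients in `ℕ`. -/
def SchurPositive (f : MvPowerSeries ℕ ℤ) : Prop :=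
  ∃ c : YoungDiagram →₀ ℕ, f = c.sum fun μ m => m • schur μ

/-- The support of the polynomial `f(x_0, …, x_(k-1))`, obtained by setting the other variables
equal to `0`. -/
def support (k : ℕ) (f : MvPowerSeries ℕ ℤ) : Set (Fin k → ℕ) :=
  {α | MvPowerSeries.coeff (∑ i : Fin k, Finsupp.single (i : ℕ) (α i)) f ≠ 0}

/-- The Newton polytope of `f(x_0, …, x_(k-1))`. -/
def newton (k : ℕ) (f : MvPowerSeries ℕ ℤ) : Set (Fin k → ℝ) :=
  convexHull ℝ ((fun α i => (α i : ℝ)) '' support k f)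

/-- The polynomial `f(x_0, …, x_(k-1))` has a saturated Newton polytope. -/
def IsSNP (k : ℕ) (f : MvPowerSeries ℕ ℤ) : Prop :=
  ∀ a : Fin k → ℤ, (fun i => (a i : ℝ)) ∈ newton k f → ∃ α ∈ support k f, ∀ i, (α i : ℤ) = a i

/-- The classes `{0,1,2,3}`, `{4,5}`, `{6,7}`, `{8,9,10,11,12}` of the vertices `0, …, 12`. -/
def cls : Fin 13 → Fin 4 := ![0, 0, 0, 0, 1, 1, 2, 2, 3, 3, 3, 3, 3]

/-- The path on four vertices, blown up into independent sets of `4, 2, 2, 5` vertices: two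
vertices are adjacent if and only if their classes are consecutive. -/
def graph : SimpleGraph (Fin 13) where
  Adj u v := (cls u).val + 1 = (cls v).val ∨ (cls v).val + 1 = (cls u).val
  symm := ⟨fun _ _ h => h.symm⟩
  loopless := ⟨fun _ h => by rcases h with h | h <;> omega⟩

lemma graph_adj (u v : Fin 13) : graph.Adj u v ↔ Pool.Agent.MP5400b1.G.Adj u v := Iff.rfl

lemma coeff_sum_monomial {F : Type} [Fintype F] (t : F → ℕ →₀ ℕ) (α : ℕ →₀ ℕ) :
    (∑ f : F, MvPolynomial.monomial (t f) (1 : ℤ)).coeff α = (Nat.card {f // t f = α} : ℤ) := by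
  classical
  rw [MvPolynomial.coeff_sum]
  simp only [MvPolynomial.coeff_monomial]
  rw [Finset.sum_boole, Nat.card_eq_fintype_card, Fintype.card_subtype]

lemma prod_X {ι : Type} (s : Finset ι) (t : ι → ℕ) :
    ∏ i ∈ s, (MvPolynomial.X (t i) : MvPolynomial ℕ ℤ) =
      MvPolynomial.monomial (∑ i ∈ s, Finsupp.single (t i) 1) 1 := by
  rw [MvPolynomial.monomial_sum_one]
  rfl

lemma lt_of_content {ι : Type} {s : Finset ι} {t : ι → ℕ} {α : ℕ →₀ ℕ} {k : ℕ}
    (hα : ∀ j, α j ≠ 0 → j < k) (h : ∑ i ∈ s, Finsupp.single (t i) 1 = α) :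
    ∀ i ∈ s, t i < k := by
  classical
  intro i hi
  apply hα
  rw [← h, Finsupp.finsetSum_apply]
  intro h0
  have h1 := (Finset.sum_eq_zero_iff.1 h0) i hi
  simp at h1

lemma coeff_chromatic {α : ℕ →₀ ℕ} {k : ℕ} (hα : ∀ j, α j ≠ 0 → j < k) :
    MvPowerSeries.coeff α (chromatic graph) =
      (Pool.Agent.MP5400b1.P k Finset.univ).coeff α := by
  unfold Pool.Agent.MP5400b1.P
  simp only [prod_X]
  rw [coeff_sum_monomial]
  change ((Nat.card _ : ℕ) : ℤ) = _
  congr 1
  refine Nat.card_congr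
    ⟨fun κ => ⟨⟨κ.1, ?_, ?_, ?_⟩, κ.2.2⟩, fun f => ⟨f.1.1, ?_, f.2⟩, ?_, ?_⟩
  · intro v _
    exact lt_of_content hα κ.2.2 v (Finset.mem_univ v)
  · intro v hv
    exact absurd (Finset.mem_univ v) hv
  · intro u _ v _ huv
    exact κ.2.1 u v huv
  · intro u v huv
    exact f.1.2.2.2 u (Finset.mem_univ u) v (Finset.mem_univ v) huv
  · intro κ
    rfl
  · intro f
    rfl

lemma coeff_schur {α : ℕ →₀ ℕ} {k : ℕ} (hα : ∀ j, α j ≠ 0 → j < k) (μ : YoungDiagram) :
    MvPowerSeries.coeff α (schur μ) = (Pool.Agent.MP5400b1.S k μ).coeff α := by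
  unfold Pool.Agent.MP5400b1.S Pool.Agent.MP5400b1.wtT
  simp only [prod_X]
  rw [coeff_sum_monomial]
  change ((Nat.card _ : ℕ) : ℤ) = _
  congr 1
  refine Nat.card_congr
    ⟨fun T => ⟨⟨T.1, ?_⟩, T.2⟩, fun T => ⟨T.1.1, T.2⟩, ?_, ?_⟩
  · intro p hp
    exact lt_of_content hα T.2 p hp
  · intro T
    rfl
  · intro T
    rfl

lemma schurPositive_graph : SchurPositive (chromatic graph) := by
  obtain ⟨c, hc⟩ := Pool.Agent.MP5400b1.schur_pos
  refine ⟨c, ?_⟩
  apply MvPowerSeries.ext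
  intro α
  have hα : ∀ j, α j ≠ 0 → j < α.support.sup id + 1 := by
    intro j hj
    have h1 : id j ≤ α.support.sup id := Finset.le_sup (Finsupp.mem_support_iff.2 hj)
    exact Nat.lt_succ_of_le h1
  rw [coeff_chromatic hα, ← hc]
  unfold Finsupp.sum
  rw [MvPolynomial.coeff_sum, map_sum]
  apply Finset.sum_congr rfl
  intro μ _
  rw [map_nsmul, coeff_schur hα, MvPolynomial.coeff_smul]

lemma small (a b c : ℕ) : ∀ j, Pool.Agent.MP5400b1.e3 a b c j ≠ 0 → j < 3 := by
  intro j hj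
  by_contra h
  apply hj
  rw [Pool.Agent.MP5400b1.e3_apply, if_neg (by omega), if_neg (by omega), if_neg (by omega)]

lemma coeff_e3 (a b c : ℕ) :
    MvPowerSeries.coeff (Pool.Agent.MP5400b1.e3 a b c) (chromatic graph) =
      (Pool.Agent.MP5400b1.XG 3).coeff (Pool.Agent.MP5400b1.e3 a b c) := by
  rw [coeff_chromatic (small a b c), Pool.Agent.MP5400b1.XG_eq_P]

lemma in1 : MvPowerSeries.coeff (Pool.Agent.MP5400b1.e3 9 2 2) (chromatic graph) ≠ 0 := by
  rw [coeff_e3]
  exact MvPolynomial.mem_support_iff.1 Pool.Agent.MP5400b1.mem1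

lemma in2 : MvPowerSeries.coeff (Pool.Agent.MP5400b1.e3 7 6 0) (chromatic graph) ≠ 0 := by
  rw [coeff_e3]
  exact MvPolynomial.mem_support_iff.1 Pool.Agent.MP5400b1.mem2

lemma out : MvPowerSeries.coeff (Pool.Agent.MP5400b1.e3 8 4 1) (chromatic graph) = 0 := by
  rw [coeff_e3]
  exact MvPolynomial.notMem_support_iff.1 Pool.Agent.MP5400b1.notMem

/-- The vector `(a, b, c, 0, …, 0)`. -/
def vec {k : ℕ} (a b c : ℕ) : Fin k → ℕ := fun i =>
  if (i : ℕ) = 0 then a else if (i : ℕ) = 1 then b else if (i : ℕ) = 2 then c else 0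

lemma ext_apply {k : ℕ} (α : Fin k → ℕ) (j : ℕ) (hj : j < k) :
    (∑ i : Fin k, Finsupp.single (i : ℕ) (α i) : ℕ →₀ ℕ) j = α ⟨j, hj⟩ := by
  classical
  rw [Finsupp.finsetSum_apply, Finset.sum_eq_single ⟨j, hj⟩]
  · simp
  · intro i _ hi
    rw [Finsupp.single_apply, if_neg]
    intro h
    exact hi (Fin.ext h)
  · intro h
    exact absurd (Finset.mem_univ _) h

lemma ext_zero {k : ℕ} (α : Fin k → ℕ) (j : ℕ) (hj : k ≤ j) :
    (∑ i : Fin k, Finsupp.single (i : ℕ) (α i) : ℕ →₀ ℕ) j = 0 := by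
  classical
  rw [Finsupp.finsetSum_apply]
  apply Finset.sum_eq_zero
  intro i _
  rw [Finsupp.single_apply, if_neg]
  have := i.2
  omega

lemma ext_vec {k : ℕ} (hk : 3 ≤ k) (a b c : ℕ) :
    (∑ i : Fin k, Finsupp.single (i : ℕ) (vec a b c i) : ℕ →₀ ℕ) =
      Pool.Agent.MP5400b1.e3 a b c := by
  ext j
  rw [Pool.Agent.MP5400b1.e3_apply]
  by_cases hj : j < k
  · rw [ext_apply _ j hj]
    rfl
  · rw [ext_zero _ j (by omega), if_neg (by omega), if_neg (by omega), if_neg (by omega)]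

lemma not_snp {k : ℕ} (hk : 3 ≤ k) : ¬ IsSNP k (chromatic graph) := by
  intro H
  obtain ⟨α, hα, h⟩ := H (fun i => ((vec 8 4 1 i : ℕ) : ℤ)) (by
    have h1 : (fun i : Fin k => ((vec 9 2 2 i : ℕ) : ℝ)) ∈
        ((fun (α : Fin k → ℕ) i => (α i : ℝ)) '' support k (chromatic graph)) :=
      ⟨vec 9 2 2, by
        change MvPowerSeries.coeff _ _ ≠ 0
        rw [ext_vec hk]
        exact in1, rfl⟩
    have h2 : (fun i : Fin k => ((vec 7 6 0 i : ℕ) : ℝ)) ∈
        ((fun (α : Fin k → ℕ) i => (α i : ℝ)) '' support k (chromatic graph)) :=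
      ⟨vec 7 6 0, by
        change MvPowerSeries.coeff _ _ ≠ 0
        rw [ext_vec hk]
        exact in2, rfl⟩
    have hmid := (convex_convexHull ℝ ((fun (α : Fin k → ℕ) i => (α i : ℝ)) ''
      support k (chromatic graph))) (subset_convexHull ℝ _ h1)
            (subset_convexHull ℝ _ h2) (show (0 : ℝ) ≤ 1 / 2 by norm_num)
            (show (0 : ℝ) ≤ 1 / 2 by norm_num) (by norm_num)
    have he : (fun i : Fin k => ((((vec 8 4 1 i : ℕ) : ℤ)) : ℝ)) =
        (1 / 2 : ℝ) • (fun i : Fin k => ((vec 9 2 2 i : ℕ) : ℝ)) +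
        (1 / 2 : ℝ) • (fun i : Fin k => ((vec 7 6 0 i : ℕ) : ℝ)) := by
      funext i
      simp only [Pi.add_apply, Pi.smul_apply, smul_eq_mul, vec]
      by_cases c0 : (i : ℕ) = 0
      · simp only [c0, if_true]; norm_num
      · by_cases c1 : (i : ℕ) = 1
        · simp only [c1, if_true]; norm_num
        · by_cases c2 : (i : ℕ) = 2
          · simp only [c2, if_true]; norm_num
          · simp only [c0, c1, c2, if_false]; norm_num
    change (fun i : Fin k => ((((vec 8 4 1 i : ℕ) : ℤ)) : ℝ)) ∈ convexHull ℝ _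
    rw [he]
    exact hmid)
  have h3 : α = vec 8 4 1 := by
    funext i
    exact_mod_cast h i
  subst h3
  apply hα
  rw [ext_vec hk]
  exact out

/-- The chromatic symmetric function of the path on four vertices blown up into independent sets
of `4, 2, 2, 5` vertices is Schur positive, but `X_G(x_1, …, x_k)` has no saturated Newton
polytope, for any `k ≥ 3`: the exponent vectors `(9,2,2)` and `(7,6,0)` occur and their midpoint
`(8,4,1)` does not. -/
theorem result : SchurPositive (chromatic graph) ∧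
    MvPowerSeries.coeff (Finsupp.single 0 9 + Finsupp.single 1 2 + Finsupp.single 2 2)
      (chromatic graph) ≠ 0 ∧
    MvPowerSeries.coeff (Finsupp.single 0 7 + Finsupp.single 1 6) (chromatic graph) ≠ 0 ∧
    MvPowerSeries.coeff (Finsupp.single 0 8 + Finsupp.single 1 4 + Finsupp.single 2 1)
      (chromatic graph) = 0 ∧
    ∀ k : ℕ, 3 ≤ k → ¬ IsSNP k (chromatic graph) := by
  refine ⟨schurPositive_graph, in1, ?_, out, fun k hk => not_snp hk⟩
  have h := in2
  unfold Pool.Agent.MP5400b1.e3 at h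
  rwa [Finsupp.single_zero, add_zero] at h

end Pool.Agent.Results.MP_5400b1_co.BlownUpPath
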